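import Pool.Agent.Q256.MP.Stm
import Pool.Agent.W276.GE.Count

/-!
# The pigeonhole step (job MP-PIG, helper275)
-/

set_option autoImplicit false

namespace Pool.Agent.Q275.MP.PIG

open Pool.Agent.W276.GE
open Pool.Agent.Q256.MP

theorem pt_zero (N i : ℕ) : pt N i 0 = 1 := by
  simp [pt]

theorem pt_abs (N m : ℕ) (i : Fin m) (j : Fin (N + 1)) : |pt N i j| ≤ (m : ℤ) + 1 := by
  have hi := i.2
  unfold pt
  split_ifs
  · rw [abs_one]
    omega
  · rw [abs_of_nonneg (by omega)]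
    omega
  · rw [abs_zero]
    omega

theorem ev_abs {N d m T : ℕ} {g : E (N + 1) d → ℤ} (hg : g ∈ box (N + 1) d T) (i : Fin m) :
    |ev g (pt N i)| ≤ ((MM N d * (T * (m + 1) ^ d) : ℕ) : ℤ) := by
  unfold ev
  refine (Finset.abs_sum_le_sum_abs _ _).trans ?_
  have h1 : ∀ α ∈ (Finset.univ : Finset (E (N + 1) d)),
      |((g α : ℤ) : ℤ) * ∏ k, pt N i k ^ α.1 k| ≤ ((T * (m + 1) ^ d : ℕ) : ℤ) := by
    intro α _
    rw [abs_mul, Finset.abs_prod]
    have h2 : ∏ k, |pt N i k ^ α.1 k| ≤ ((m : ℤ) + 1) ^ d := by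
      calc ∏ k, |pt N i k ^ α.1 k| ≤ ∏ k, ((m : ℤ) + 1) ^ α.1 k := by
            refine Finset.prod_le_prod (fun k _ => abs_nonneg _) fun k _ => ?_
            rw [abs_pow]
            exact pow_le_pow_left₀ (abs_nonneg _) (pt_abs N m i k) _
        _ = _ := by rw [Finset.prod_pow_eq_pow_sum, E_sum α]
    have h3 : |((g α : ℤ) : ℤ)| ≤ (T : ℤ) := mem_box.1 hg α
    push_cast
    exact mul_le_mul h3 h2 (Finset.prod_nonneg fun k _ => abs_nonneg _) (by positivity)
  refine (Finset.sum_le_sum h1).trans ?_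
  rw [Finset.sum_const, Finset.card_univ, nsmul_eq_mul]
  push_cast
  exact le_rfl

/-- the integers attached to a system -/
noncomputable def TT (N d m : ℕ) (σ : Fin m → Fin m) (G : Sy N d) : Fin m × Fin N → ℤ := fun p =>
  ev (G p.2.succ) (pt N p.1) - pt N (σ p.1) p.2.succ * ev (G 0) (pt N p.1)

theorem pig : S_pig := by
  classical
  intro N d m hm σ
  obtain ⟨C1, hC1⟩ : ∃ C1 : ℕ, C1 = MM N d * (m + 1) ^ d * (m + 2) := ⟨_, rfl⟩
  refine ⟨(C1 + 1) ^ (m * N), ?_⟩
  intro H hH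
  obtain ⟨S, hS⟩ : ∃ S : Finset (Sy N d), S = (Fb (N + 1) d H).filter fun G =>
      ∀ (i : Fin m) (j : Fin (N + 1)),
        ev (G j) (pt N (i : Fin m)) = ev (G 0) (pt N i) * pt N (σ i) j := ⟨_, rfl⟩
  have hSn : {G : Sy N d | G ∈ Fb (N + 1) d H ∧
      ∀ (i : Fin m) (j : Fin (N + 1)),
        ev (G j) (pt N (i : Fin m)) = ev (G 0) (pt N i) * pt N (σ i) j}.ncard = S.card := by
    rw [← Set.ncard_coe_finset]
    congr 1
    ext G
    rw [hS]
    simp
  rw [hSn]
  obtain ⟨B, hB⟩ : ∃ B : ℕ, B = C1 * (H / 2) := ⟨_, rfl⟩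
  obtain ⟨tg, htg⟩ : ∃ tg : Finset (Fin m × Fin N → ℤ),
      tg = Fintype.piFinset fun _ => Finset.Icc (-(B : ℤ)) B := ⟨_, rfl⟩
  have htc : tg.card = (2 * B + 1) ^ (m * N) := by
    rw [htg, Fintype.card_piFinset]
    simp only [Int.card_Icc, Finset.prod_const, Finset.card_univ, Fintype.card_prod,
      Fintype.card_fin]
    congr 1
    omega
  have hmaps : ∀ G ∈ Fb (N + 1) d (H / 2), TT N d m σ G ∈ tg := by
    intro G hG
    rw [htg, Fintype.mem_piFinset]
    rintro ⟨i, k⟩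
    rw [Finset.mem_Icc, ← abs_le]
    have h1 := ev_abs (mem_Fb.1 hG k.succ) i
    have h2 := ev_abs (mem_Fb.1 hG 0) i
    have h3 := pt_abs N m (σ i) k.succ
    show |ev (G k.succ) (pt N i) - pt N (σ i) k.succ * ev (G 0) (pt N i)| ≤ _
    calc _ ≤ |ev (G k.succ) (pt N i)| + |pt N (σ i) k.succ * ev (G 0) (pt N i)| := abs_sub _ _
      _ ≤ ((MM N d * (H / 2 * (m + 1) ^ d) : ℕ) : ℤ) +
          ((m : ℤ) + 1) * ((MM N d * (H / 2 * (m + 1) ^ d) : ℕ) : ℤ) := by
          rw [abs_mul]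
          exact add_le_add h1 (mul_le_mul h3 h2 (abs_nonneg _) (by positivity))
      _ = (B : ℤ) := by
          rw [hB, hC1]
          push_cast
          ring
  have hfib : ∀ b ∈ tg, ((Fb (N + 1) d (H / 2)).filter fun G => TT N d m σ G = b).card ≤
      S.card := by
    intro b _
    rcases ((Fb (N + 1) d (H / 2)).filter fun G => TT N d m σ G = b).eq_empty_or_nonempty with
      h0 | ⟨G₀, hG₀⟩
    · rw [h0]
      simp
    · rw [Finset.mem_filter] at hG₀
      refine Finset.card_le_card_of_injOn (fun G => G - G₀) ?_ ?_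
      · intro G hG
        have hG' := Finset.mem_filter.1 (Finset.mem_coe.1 hG)
        rw [Finset.mem_coe, hS, Finset.mem_filter]
        constructor
        · rw [mem_Fb]
          intro i
          rw [mem_box]
          intro α
          have h1 := mem_box.1 (mem_Fb.1 hG'.1 i) α
          have h2 := mem_box.1 (mem_Fb.1 hG₀.1 i) α
          have h3 : |G i α - G₀ i α| ≤ |G i α| + |G₀ i α| := abs_sub _ _
          have h4 : ((H / 2 : ℕ) : ℤ) + ((H / 2 : ℕ) : ℤ) ≤ H := by omega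
          show |G i α - G₀ i α| ≤ (H : ℤ)
          linarith
        · intro i j
          show ev (G j - G₀ j) (pt N i) = ev (G 0 - G₀ 0) (pt N i) * pt N (σ i) j
          rw [ev_sub, ev_sub]
          refine Fin.cases ?_ (fun k => ?_) j
          · rw [pt_zero]
            ring
          · have h5 := congrFun (hG'.2.trans hG₀.2.symm) (i, k)
            simp only [TT] at h5
            linarith
      · intro G _ G' _ h
        exact sub_left_injective h
  have hmain := Finset.card_le_mul_card_image_of_maps_to hmaps S.card hfib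
  rw [card_Fb, htc] at hmain
  have hH0 : 0 < H := hH
  have h1 : H ^ QQ N d ≤ (2 * (H / 2) + 1) ^ QQ N d := Nat.pow_le_pow_left (by omega) _
  have h2 : (2 * B + 1) ^ (m * N) ≤ ((C1 + 1) * H) ^ (m * N) := by
    refine Nat.pow_le_pow_left ?_ _
    have h3 : 2 * B ≤ C1 * H := by
      rw [hB]
      calc 2 * (C1 * (H / 2)) = C1 * (2 * (H / 2)) := by ring
        _ ≤ C1 * H := Nat.mul_le_mul_left _ (by omega)
    calc 2 * B + 1 ≤ C1 * H + H := by omega
      _ = (C1 + 1) * H := by ring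
  have h4 : H ^ QQ N d = H ^ (QQ N d - m * N) * H ^ (m * N) := by
    rw [← pow_add, Nat.sub_add_cancel hm]
  have h5 : H ^ (QQ N d - m * N) * H ^ (m * N) ≤
      ((C1 + 1) ^ (m * N) * S.card) * H ^ (m * N) := by
    calc H ^ (QQ N d - m * N) * H ^ (m * N) = H ^ QQ N d := h4.symm
      _ ≤ (2 * (H / 2) + 1) ^ QQ N d := h1
      _ ≤ S.card * (2 * B + 1) ^ (m * N) := hmain
      _ ≤ S.card * ((C1 + 1) * H) ^ (m * N) := Nat.mul_le_mul_left _ h2
      _ = _ := by rw [mul_pow]; ring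
  exact Nat.le_of_mul_le_mul_right h5 (pow_pos hH0 _)

end Pool.Agent.Q275.MP.PIG
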