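import Pool.Agent.Q256.MP.Stm
import Pool.Agent.W276.GE.Count
import Pool.Agent.W276.GE.Conv

/-!
# The lower bound (job MP-SLOW, helper275)
-/

set_option autoImplicit false

namespace Pool.Agent.Q275.MP.SLOW

open Pool.Agent.W276.GE
open Pool.Agent.Q256.MP

theorem le_card (N d : ℕ) (hN : 1 ≤ N) : d + 1 ≤ Fintype.card (E (N + 1) d) := by
  rw [card_E]
  calc d + 1 = (1 + d).choose 1 := by rw [Nat.choose_one_right]; ring
    _ = (1 + d).choose d := by
        rw [Nat.choose_symm_add]
    _ ≤ (N + d).choose d := Nat.choose_le_choose d (by omega)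
    _ = (N + d).choose N := (Nat.choose_symm_add).symm

theorem slow (h1 : S_tri) (h2 : S_star) (h3 : S_pig) : S_slow := by
  classical
  intro N d m hN hm hmd σ
  have hmN : m * N ≤ QQ N d := by
    have h4 := le_card N d hN
    calc m * N ≤ Fintype.card (E (N + 1) d) * (N + 1) := Nat.mul_le_mul (by omega) (by omega)
      _ = QQ N d := by rw [mul_comm]
  obtain ⟨L, F, hL, hF1, hF2, hF3⟩ := h2 N d m hN hm hmd σ
  obtain ⟨C, hC⟩ := h3 N d m hmN σ
  obtain ⟨q, hq⟩ : ∃ q : ℕ, q = L + 1 := ⟨_, rfl⟩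
  have hq2 : 2 ≤ q := by omega
  obtain ⟨B, hB⟩ : ∃ B : ℕ, ∀ j α, |F j α| ≤ (B : ℤ) := by
    refine ⟨∑ j, ∑ α, (F j α).natAbs, fun j α => ?_⟩
    rw [Int.abs_eq_natAbs]
    have h4 : (F j α).natAbs ≤ ∑ α, (F j α).natAbs :=
      Finset.single_le_sum (f := fun α => (F j α).natAbs) (fun _ _ => Nat.zero_le _)
        (Finset.mem_univ α)
    have h5 : ∑ α, (F j α).natAbs ≤ ∑ j, ∑ α, (F j α).natAbs :=
      Finset.single_le_sum (f := fun j => ∑ α, (F j α).natAbs) (fun _ _ => Nat.zero_le _)
        (Finset.mem_univ j)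
    exact_mod_cast h4.trans h5
  obtain ⟨e, he⟩ : ∃ e : ℕ, e = QQ N d - m * N := ⟨_, rfl⟩
  refine ⟨2 * B + 2 * q + (4 * q) ^ e * C, by omega, ?_⟩
  intro H hH
  rw [← he]
  obtain ⟨H', hH'⟩ : ∃ H' : ℕ, H' = (H - B) / q := ⟨_, rfl⟩
  have hHB : 2 * B + 2 * q ≤ H := by omega
  have hq0 : 0 < q := by omega
  have hdm : q * H' + (H - B) % q = H - B := by
    rw [hH']
    exact Nat.div_add_mod _ _
  have hmod : (H - B) % q < q := Nat.mod_lt _ hq0
  have hH1 : 1 ≤ H' := by
    rw [hH', Nat.le_div_iff_mul_le hq0]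
    omega
  have hHH : H ≤ 4 * q * H' := by
    have : 4 * q * H' = 4 * (q * H') := by ring
    rw [this]
    omega
  have hpig := hC H' hH1
  rw [← he] at hpig
  -- the map
  have hinj : ({G : Sy N d | G ∈ Fb (N + 1) d H' ∧
      ∀ (i : Fin m) (j : Fin (N + 1)),
        ev (G j) (pt N (i : Fin m)) = ev (G 0) (pt N i) * pt N (σ i) j}).ncard ≤
      ({F : Sy N d | F ∈ Fb (N + 1) d H ∧ NoZero F ∧
        ∀ i : Fin m, ∃ c : ℤ, c ≠ 0 ∧ ∀ j, ev (F j) (pt N i) = c * pt N (σ i) j}).ncard := by
    refine Set.ncard_le_ncard_of_injOn (fun G : Sy N d => fun j => F j + (q : ℤ) • G j) ?_ ?_ ?_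
    · rintro G ⟨hG, hG2⟩
      refine ⟨?_, ?_, ?_⟩
      · rw [mem_Fb]
        intro j
        rw [mem_box]
        intro α
        have h4 := hB j α
        have h5 := mem_box.1 (mem_Fb.1 hG j) α
        show |F j α + (q : ℤ) * G j α| ≤ (H : ℤ)
        have h6 : |F j α + (q : ℤ) * G j α| ≤ |F j α| + |(q : ℤ) * G j α| := abs_add_le _ _
        have h7 : |(q : ℤ) * G j α| ≤ (q : ℤ) * H' := by
          rw [abs_mul, Nat.abs_cast]
          exact mul_le_mul_of_nonneg_left h5 (by positivity)
        have h8 : (B : ℤ) + (q : ℤ) * H' ≤ H := by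
          have h9 : q * H' ≤ H - B := by omega
          have h10 : B + q * H' ≤ H := by omega
          exact_mod_cast h10
        linarith
      · refine h1 N d q (by omega) hq2 _ ?_ ?_
        · intro j
          show ((F j (Pool.Agent.W376.GE.pw d j) + (q : ℤ) * G j (Pool.Agent.W376.GE.pw d j) : ℤ) :
            ZMod q) = -1
          have h4 : (((q : ℕ) : ℤ) : ZMod q) = 0 := by
            rw [Int.cast_natCast]
            exact ZMod.natCast_self q
          rw [Int.cast_add, Int.cast_mul, h4, zero_mul, add_zero, hF1 j]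
          have h5 : ((L : ℕ) : ZMod q) + 1 = 0 := by
            have h6 : ((L + 1 : ℕ) : ZMod q) = 0 := by
              rw [← hq]
              exact ZMod.natCast_self q
            push_cast at h6
            exact h6
          rw [Int.cast_natCast]
          exact eq_neg_of_add_eq_zero_left h5
        · intro j α hα hne
          refine hF2 j α hα ?_
          intro h0
          refine hne ?_
          show ((F j α + (q : ℤ) * G j α : ℤ) : ZMod q) = 0
          have h4 : (((q : ℕ) : ℤ) : ZMod q) = 0 := by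
            rw [Int.cast_natCast]
            exact ZMod.natCast_self q
          rw [Int.cast_add, Int.cast_mul, h4, zero_mul, add_zero, h0, Int.cast_zero]
      · intro i
        refine ⟨(L : ℤ) + q * ev (G 0) (pt N i), ?_, ?_⟩
        · intro h0
          have h4 : (q : ℤ) * (1 + ev (G 0) (pt N i)) = 1 := by
            have : (q : ℤ) = L + 1 := by rw [hq]; push_cast; ring
            linarith
          have h5 : (q : ℤ) ∣ 1 := ⟨_, h4.symm⟩
          have h6 := Int.le_of_dvd one_pos h5
          omega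
        · intro j
          show ev (F j + (q : ℤ) • G j) (pt N i) = _
          rw [ev_add, ev_zsmul, hF3 i j, hG2 i j]
          push_cast
          ring
    · intro G _ G' _ h
      funext j α
      have h4 := congrFun (congrFun h j) α
      have h5 : F j α + (q : ℤ) * G j α = F j α + (q : ℤ) * G' j α := h4
      have h6 : (q : ℤ) * G j α = (q : ℤ) * G' j α := by linarith
      exact mul_left_cancel₀ (by positivity) h6
    · exact (Fb (N + 1) d H).finite_toSet.subset fun F hF => hF.1
  calc H ^ e ≤ (4 * q * H') ^ e := Nat.pow_le_pow_left hHH _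
    _ = (4 * q) ^ e * H' ^ e := mul_pow _ _ _
    _ ≤ (4 * q) ^ e * (C * _) := Nat.mul_le_mul_left _ hpig
    _ ≤ (4 * q) ^ e * (C * _) := Nat.mul_le_mul_left _ (Nat.mul_le_mul_left _ hinj)
    _ = ((4 * q) ^ e * C) * _ := by ring
    _ ≤ _ := Nat.mul_le_mul_right _ (by omega)

end Pool.Agent.Q275.MP.SLOW
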